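import Mathlib
import Pool.Agent.H92.BH.HDefs

/-!
MP_5aa732_co, project BJ92: odd-hole-free graphs without loaded hats and triple crowns (a common generalisation of
claw-free, bull-free and P_5-free graphs).
-/

set_option autoImplicit false
set_option linter.unusedSectionVars false
set_option linter.unusedVariables false

namespace Pool.Agent.H92.BJ

open SimpleGraph Finset Pool.Agent.H92.TD Pool.Agent.H92.BF Pool.Agent.H92.BG Pool.Agent.H92.BH

/-- an induced claw with centre `v` -/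
def Clw {V : Type} (G : SimpleGraph V) (v a b c : V) : Prop :=
  G.Adj v a ∧ G.Adj v b ∧ G.Adj v c ∧ a ≠ b ∧ a ≠ c ∧ b ≠ c ∧
    ¬ G.Adj a b ∧ ¬ G.Adj a c ∧ ¬ G.Adj b c

/-- For a hat `w` of an even hole no claw has its centre `v` and a leaf `a` in the component of `w` in the subgraph
induced by `w` and the vertices without neighbour on the hole. -/
def LoadFree {V : Type} (G : SimpleGraph V) : Prop :=
  ∀ (k : ℕ) (f : SimpleGraph.cycleGraph (2 * k + 4) ↪g G) (i j : Fin (2 * k + 4)) (w v a b c : V)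
    (p : G.Walk w v),
    (SimpleGraph.cycleGraph (2 * k + 4)).Adj i j → (∀ l, G.Adj w (f l) ↔ (l = i ∨ l = j)) →
    Clw G v a b c → (∀ x ∈ p.support, x = w ∨ ∀ l, ¬ G.Adj x (f l)) →
    (a = w ∨ ∀ l, ¬ G.Adj a (f l)) → False

/-- No hat `w` of an even hole is the centre of a claw `a`, `b`, `c` such that `a` has the neighbour `i` only, `b` has
the neighbour `j` only, and `c` at most the neighbours `i`, `j` on the hole. -/
def TCrownFree {V : Type} (G : SimpleGraph V) : Prop :=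
  ∀ (k : ℕ) (f : SimpleGraph.cycleGraph (2 * k + 4) ↪g G) (i j : Fin (2 * k + 4)) (w a b c : V),
    (SimpleGraph.cycleGraph (2 * k + 4)).Adj i j → (∀ l, G.Adj w (f l) ↔ (l = i ∨ l = j)) →
    Clw G w a b c → (∀ l, G.Adj a (f l) ↔ l = i) → (∀ l, G.Adj b (f l) ↔ l = j) →
    (∀ l, G.Adj c (f l) → l = i ∨ l = j) → False

variable {V : Type} {G : SimpleGraph V} {v : V} {d : V → ℕ} {Z : Finset V}

theorem walk_down (h : LayC G v d Z) (n : ℕ) : ∀ w, d w = n →
    ∃ p : G.Walk w v, ∀ x ∈ p.support, x = w ∨ d x < n := by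
  induction n with
  | zero =>
    intro w hw
    have e : w = v := (h.d0 w).1 hw
    subst e
    refine ⟨SimpleGraph.Walk.nil, ?_⟩
    intro x hx
    left
    simpa using hx
  | succ n ih =>
    intro w hw
    obtain ⟨x, hx, hxd⟩ := h.d2 w (by omega)
    obtain ⟨p, hp⟩ := ih x (by omega)
    refine ⟨SimpleGraph.Walk.cons hx p, ?_⟩
    intro y hy
    rw [SimpleGraph.Walk.support_cons, List.mem_cons] at hy
    rcases hy with rfl | hy
    · exact Or.inl rfl
    · rcases hp y hy with rfl | h2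
      · right
        omega
      · right
        omega

theorem pick1 (h3 : 3 ≤ Z.card) (z z' : V) : ∃ c ∈ Z, z ≠ c ∧ z' ≠ c := by
  classical
  obtain ⟨c, hc, hn⟩ : ∃ c ∈ Z, c ∉ ({z, z'} : Finset V) := by
    by_contra hcon
    push Not at hcon
    have hsub : Z ⊆ {z, z'} := hcon
    have e1 := Finset.card_le_card hsub
    have e2 : ({z, z'} : Finset V).card ≤ 2 := Finset.card_le_two
    omega
  refine ⟨c, hc, ?_, ?_⟩
  · rintro rfl
    exact hn (by simp)
  · rintro rfl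
    exact hn (by simp)

/-- three members of a stable set of neighbours of `v` form a claw -/
theorem clw_of (h : LayC G v d Z) {a b c : V} (ha : a ∈ Z) (hb : b ∈ Z) (hc : c ∈ Z)
    (hab : a ≠ b) (hac : a ≠ c) (hbc : b ≠ c) : Clw G v a b c :=
  ⟨h.Z1 a ha, h.Z1 b hb, h.Z1 c hc, hab, hac, hbc, h.Zs a ha b hb, h.Zs a ha c hc, h.Zs b hb c hc⟩

theorem clw_ex (h : LayC G v d Z) (h3 : 3 ≤ Z.card) {a : V} (ha : a ∈ Z) :
    ∃ b c, Clw G v a b c := by
  obtain ⟨b, hb, hab, -⟩ := pick1 h3 a a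
  obtain ⟨c, hc, hac, hbc⟩ := pick1 h3 a b
  exact ⟨b, c, clw_of h ha hb hc hab hac hbc⟩

theorem bj_ld (hh : LoadFree G) {n : ℕ} {p : ℕ → V}
    (hp : IP G n p) (hodd : Odd n) {x x' w u a b c : V} (hx0 : G.Adj x (p 0))
    (hx : ∀ j, 0 < j → j ≤ n → ¬ G.Adj x (p j)) (hxne : ∀ j, j ≤ n → x ≠ p j)
    (hxn : G.Adj x' (p n)) (hx' : ∀ j, j < n → ¬ G.Adj x' (p j)) (hxne' : ∀ j, j ≤ n → x' ≠ p j)
    (hxx : G.Adj x x') (hwx : G.Adj w x) (hwx' : G.Adj w x') (hw : ∀ j, j ≤ n → ¬ G.Adj w (p j))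
    (q : G.Walk w u)
    (hq : ∀ y ∈ q.support, y = w ∨ (¬ G.Adj y x ∧ ¬ G.Adj y x' ∧ ∀ j, j ≤ n → ¬ G.Adj y (p j)))
    (hcl : Clw G u a b c)
    (hal : a = w ∨ (¬ G.Adj a x ∧ ¬ G.Adj a x' ∧ ∀ j, j ≤ n → ¬ G.Adj a (p j))) : False := by
  obtain ⟨k, f, i, j, hij, hi, hj, hl⟩ := bh_cyc hp hodd hx0 hx hxne hxn hx' hxne' hxx
  have far : ∀ y, (¬ G.Adj y x ∧ ¬ G.Adj y x' ∧ ∀ j, j ≤ n → ¬ G.Adj y (p j)) →
      ∀ l, ¬ G.Adj y (f l) := by
    rintro y ⟨h1, h2, h3⟩ l
    rcases hl l with rfl | rfl | ⟨r, hr, e⟩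
    · rw [hi]
      exact h1
    · rw [hj]
      exact h2
    · rw [e]
      exact h3 r hr
  refine hh k f i j w u a b c q hij ?_ hcl ?_ ?_
  · intro l
    constructor
    · intro ha
      rcases hl l with h1 | h1 | ⟨r, hr, e⟩
      · exact Or.inl h1
      · exact Or.inr h1
      · rw [e] at ha
        exact absurd ha (hw r hr)
    · rintro (rfl | rfl)
      · rw [hi]
        exact hwx
      · rw [hj]
        exact hwx'
  · intro y hy
    rcases hq y hy with h1 | h1
    · exact Or.inl h1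
    · exact Or.inr (far y h1)
  · rcases hal with h1 | h1
    · exact Or.inl h1
    · exact Or.inr (far a h1)

theorem bj_crown (hh : TCrownFree G) {n : ℕ} {p : ℕ → V}
    (hp : IP G n p) (hodd : Odd n) {x x' w z z' z'' : V} (hx0 : G.Adj x (p 0))
    (hx : ∀ j, 0 < j → j ≤ n → ¬ G.Adj x (p j)) (hxne : ∀ j, j ≤ n → x ≠ p j)
    (hxn : G.Adj x' (p n)) (hx' : ∀ j, j < n → ¬ G.Adj x' (p j)) (hxne' : ∀ j, j ≤ n → x' ≠ p j)
    (hxx : G.Adj x x') (hwx : G.Adj w x) (hwx' : G.Adj w x') (hw : ∀ j, j ≤ n → ¬ G.Adj w (p j))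
    (hcl : Clw G w z z' z'') (hzx : G.Adj z x)
    (hzx' : ¬ G.Adj z x') (hz : ∀ j, j ≤ n → ¬ G.Adj z (p j)) (hz'x' : G.Adj z' x')
    (hz'x : ¬ G.Adj z' x) (hz' : ∀ j, j ≤ n → ¬ G.Adj z' (p j))
    (hz'' : ∀ j, j ≤ n → ¬ G.Adj z'' (p j)) : False := by
  obtain ⟨k, f, i, j, hij, hi, hj, hl⟩ := bh_cyc hp hodd hx0 hx hxne hxn hx' hxne' hxx
  refine hh k f i j w z z' z'' hij ?_ hcl ?_ ?_ ?_
  · intro l
    constructor
    · intro ha
      rcases hl l with h1 | h1 | ⟨r, hr, e⟩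
      · exact Or.inl h1
      · exact Or.inr h1
      · rw [e] at ha
        exact absurd ha (hw r hr)
    · rintro (rfl | rfl)
      · rw [hi]
        exact hwx
      · rw [hj]
        exact hwx'
  · intro l
    constructor
    · intro ha
      rcases hl l with h1 | h1 | ⟨r, hr, e⟩
      · exact h1
      · rw [h1, hj] at ha
        exact absurd ha hzx'
      · rw [e] at ha
        exact absurd ha (hz r hr)
    · rintro rfl
      rw [hi]
      exact hzx
  · intro l
    constructor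
    · intro ha
      rcases hl l with h1 | h1 | ⟨r, hr, e⟩
      · rw [h1, hi] at ha
        exact absurd ha hz'x
      · exact h1
      · rw [e] at ha
        exact absurd ha (hz' r hr)
    · rintro rfl
      rw [hj]
      exact hz'x'
  · intro l ha
    rcases hl l with h1 | h1 | ⟨r, hr, e⟩
    · exact Or.inl h1
    · exact Or.inr h1
    · rw [e] at ha
      exact absurd ha (hz'' r hr)

end Pool.Agent.H92.BJ
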