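import Mathlib
import Pool.Agent.H92.BF.BAsm
import Pool.Agent.H92.BJ.JDefs

/-!
MP_5aa732_co, project BJ92: claw-free, bull-free and `P_5`-free graphs have no loaded hats and triple crowns.
-/

set_option autoImplicit false
set_option linter.unusedSectionVars false
set_option linter.unusedVariables false

namespace Pool.Agent.H92.BJ

open SimpleGraph Finset Pool.Agent.H92.TD Pool.Agent.H92.BF Pool.Agent.H92.BG Pool.Agent.H92.BH

variable {V : Type} {G : SimpleGraph V}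

theorem cls_adj {N : ℕ} (hN : 3 ≤ N) (a b : Fin N) : (SimpleGraph.cycleGraph N).Adj a b ↔
    (b.val = a.val + 1 ∨ a.val = b.val + 1 ∨ (a.val = 0 ∧ b.val = N - 1) ∨
      (b.val = 0 ∧ a.val = N - 1)) := by
  have sv : ∀ x y : Fin N, (x - y).val =
      if y.val ≤ x.val then x.val - y.val else N - y.val + x.val := by
    intro x y
    have hx := x.isLt
    have hy := y.isLt
    rw [Fin.val_sub]
    split_ifs with h
    · have e : N - y.val + x.val = (x.val - y.val) + N := by omega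
      rw [e, Nat.add_mod_right, Nat.mod_eq_of_lt (by omega)]
    · rw [Nat.mod_eq_of_lt (by omega)]
  have ha := a.isLt
  have hb := b.isLt
  rw [SimpleGraph.cycleGraph_adj', sv, sv]
  split_ifs <;> omega

/-- the next two vertices of the cycle after the edge `i j` -/
theorem cls_next {N : ℕ} (hN : 4 ≤ N) (i j : Fin N) (hij : (SimpleGraph.cycleGraph N).Adj i j) :
    ∃ l1 l2 : Fin N, (SimpleGraph.cycleGraph N).Adj j l1 ∧ (SimpleGraph.cycleGraph N).Adj l1 l2 ∧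
      l1 ≠ i ∧ l1 ≠ j ∧ l2 ≠ i ∧ l2 ≠ j ∧ ¬ (SimpleGraph.cycleGraph N).Adj j l2 ∧
      ¬ (SimpleGraph.cycleGraph N).Adj i l1 := by
  have hi := i.isLt
  have hj := j.isLt
  rw [cls_adj (by omega)] at hij
  obtain ⟨p, q, hp, hq, hpq⟩ : ∃ p q : ℕ, p < N ∧ q < N ∧
      (((j.val = i.val + 1 ∨ (j.val = 0 ∧ i.val = N - 1)) ∧
        (p = j.val + 1 ∨ (p = 0 ∧ j.val = N - 1)) ∧ (q = p + 1 ∨ (q = 0 ∧ p = N - 1))) ∨
      ((i.val = j.val + 1 ∨ (i.val = 0 ∧ j.val = N - 1)) ∧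
        (j.val = p + 1 ∨ (j.val = 0 ∧ p = N - 1)) ∧ (p = q + 1 ∨ (p = 0 ∧ q = N - 1)))) := by
    by_cases hup : j.val = i.val + 1 ∨ (j.val = 0 ∧ i.val = N - 1)
    · by_cases c1 : j.val = N - 1
      · exact ⟨0, 1, by omega, by omega, Or.inl ⟨hup, Or.inr ⟨rfl, c1⟩, Or.inl rfl⟩⟩
      · by_cases c2 : j.val = N - 2
        · exact ⟨N - 1, 0, by omega, by omega, Or.inl ⟨hup, Or.inl (by omega), Or.inr ⟨rfl, rfl⟩⟩⟩
        · exact ⟨j.val + 1, j.val + 2, by omega, by omega, Or.inl ⟨hup, Or.inl rfl, Or.inl rfl⟩⟩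
    · have hdn : i.val = j.val + 1 ∨ (i.val = 0 ∧ j.val = N - 1) := by omega
      by_cases c1 : j.val = 0
      · exact ⟨N - 1, N - 2, by omega, by omega,
          Or.inr ⟨hdn, Or.inr ⟨c1, rfl⟩, Or.inl (by omega)⟩⟩
      · by_cases c2 : j.val = 1
        · exact ⟨0, N - 1, by omega, by omega, Or.inr ⟨hdn, Or.inl (by omega), Or.inr ⟨rfl, rfl⟩⟩⟩
        · exact ⟨j.val - 1, j.val - 2, by omega, by omega,
            Or.inr ⟨hdn, Or.inl (by omega), Or.inl (by omega)⟩⟩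
  have h3 : 3 ≤ N := by omega
  refine ⟨⟨p, hp⟩, ⟨q, hq⟩, (cls_adj h3 _ _).2 ?_, (cls_adj h3 _ _).2 ?_, fun e => ?_, fun e => ?_,
    fun e => ?_, fun e => ?_, fun e => ?_, fun e => ?_⟩
  · show p = j.val + 1 ∨ j.val = p + 1 ∨ (j.val = 0 ∧ p = N - 1) ∨ (p = 0 ∧ j.val = N - 1)
    omega
  · show q = p + 1 ∨ p = q + 1 ∨ (p = 0 ∧ q = N - 1) ∨ (q = 0 ∧ p = N - 1)
    omega
  · have e' : p = i.val := congrArg Fin.val e
    omega
  · have e' : p = j.val := congrArg Fin.val e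
    omega
  · have e' : q = i.val := congrArg Fin.val e
    omega
  · have e' : q = j.val := congrArg Fin.val e
    omega
  · have e' : q = j.val + 1 ∨ j.val = q + 1 ∨ (j.val = 0 ∧ q = N - 1) ∨ (q = 0 ∧ j.val = N - 1) :=
      (cls_adj h3 _ _).1 e
    omega
  · have e' : p = i.val + 1 ∨ i.val = p + 1 ∨ (i.val = 0 ∧ p = N - 1) ∨ (p = 0 ∧ i.val = N - 1) :=
      (cls_adj h3 _ _).1 e
    omega

/-- a hat `w` and a neighbour `u` of `w` whose only possible neighbour on the hole is `i`: a `P_5` -/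
theorem cls_p5 {k : ℕ} (f : SimpleGraph.cycleGraph (2 * k + 4) ↪g G) {i j : Fin (2 * k + 4)}
    {w u : V} (hij : (SimpleGraph.cycleGraph (2 * k + 4)).Adj i j)
    (hw : ∀ l, G.Adj w (f l) ↔ (l = i ∨ l = j)) (hwu : G.Adj w u)
    (hu : ∀ l, G.Adj u (f l) → l = i) : Nonempty (SimpleGraph.pathGraph 5 ↪g G) := by
  obtain ⟨l1, l2, h1, h2, h3, h4, h5, h6, h7, h8⟩ := cls_next (by omega) i j hij
  have a1 : G.Adj w (f j) := (hw j).2 (Or.inr rfl)
  have a2 : G.Adj (f j) (f l1) := f.map_adj_iff.2 h1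
  have a3 : G.Adj (f l1) (f l2) := f.map_adj_iff.2 h2
  have hji : j ≠ i := hij.ne'
  have n1 : ¬ G.Adj u (f j) := fun e => hji (hu j e)
  have n2 : ¬ G.Adj u (f l1) := fun e => h3 (hu l1 e)
  have n3 : ¬ G.Adj u (f l2) := fun e => h5 (hu l2 e)
  have n4 : ¬ G.Adj w (f l1) := fun e => by
    rcases (hw l1).1 e with h | h
    · exact h3 h
    · exact h4 h
  have n5 : ¬ G.Adj w (f l2) := fun e => by
    rcases (hw l2).1 e with h | h
    · exact h5 h
    · exact h6 h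
  have n6 : ¬ G.Adj (f j) (f l2) := fun e => h7 (f.map_adj_iff.1 e)
  have e1 : u ≠ w := hwu.ne'
  have e2 : u ≠ f j := fun e => n2 (by rw [e]; exact a2)
  have e3 : u ≠ f l1 := fun e => n3 (by rw [e]; exact a3)
  have e4 : u ≠ f l2 := fun e => n2 (by rw [e]; exact a3.symm)
  have e5 : w ≠ f j := a1.ne
  have e6 : w ≠ f l1 := fun e => n5 (by rw [e]; exact a3)
  have e7 : w ≠ f l2 := fun e => n4 (by rw [e]; exact a3.symm)
  have e8 : f j ≠ f l1 := a2.ne
  have e9 : f j ≠ f l2 := fun e => h6 (f.injective e).symm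
  have e10 : f l1 ≠ f l2 := a3.ne
  have hf : Function.Injective (![u, w, f j, f l1, f l2] : Fin 5 → V) := by
    intro a b hab
    fin_cases a <;> fin_cases b <;> simp_all
  refine ⟨⟨⟨(![u, w, f j, f l1, f l2] : Fin 5 → V), hf⟩, ?_⟩⟩
  intro a b
  have hwu' := hwu.symm
  have a1' := a1.symm
  have a2' := a2.symm
  have a3' := a3.symm
  have n1' : ¬ G.Adj (f j) u := fun e => n1 e.symm
  have n2' : ¬ G.Adj (f l1) u := fun e => n2 e.symm
  have n3' : ¬ G.Adj (f l2) u := fun e => n3 e.symm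
  have n4' : ¬ G.Adj (f l1) w := fun e => n4 e.symm
  have n5' : ¬ G.Adj (f l2) w := fun e => n5 e.symm
  have n6' : ¬ G.Adj (f l2) (f j) := fun e => n6 e.symm
  clear e1 e2 e3 e4 e5 e6 e7 e8 e9 e10 hw hu hji hij h1 h2 h3 h4 h5 h6 h7 h8
  fin_cases a <;> fin_cases b <;>
    simp [SimpleGraph.pathGraph_adj, hwu, hwu', a1, a1', a2, a2', a3, a3', n1, n1', n2, n2', n3, n3',
      n4, n4', n5, n5', n6, n6']

/-- a hat with an antenna gives a bull -/
theorem cls_bull1 (hb : Bullfree G) {k : ℕ} (f : SimpleGraph.cycleGraph (2 * k + 4) ↪g G)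
    {i j : Fin (2 * k + 4)}
    {w u : V} (hij : (SimpleGraph.cycleGraph (2 * k + 4)).Adj i j)
    (hw : ∀ l, G.Adj w (f l) ↔ (l = i ∨ l = j)) (hwu : G.Adj w u)
    (hu : ∀ l, ¬ G.Adj u (f l)) : False := by
  obtain ⟨l1, l2, h1, h2, h3, h4, h5, h6, h7, h8⟩ := cls_next (by omega) i j hij
  have a1 : G.Adj w (f j) := (hw j).2 (Or.inr rfl)
  have a2 : G.Adj w (f i) := (hw i).2 (Or.inl rfl)
  have n4 : ¬ G.Adj w (f l1) := fun e => by
    rcases (hw l1).1 e with h | h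
    · exact h3 h
    · exact h4 h
  exact hb u w (f j) (f l1) (f i) hwu.symm a1 (f.map_adj_iff.2 h1) a2.symm (f.map_adj_iff.2 hij)
    (hu j) (hu l1) n4 (hu i) (fun e => h8 (f.map_adj_iff.1 e.symm))

theorem cls_bull2 (hb : Bullfree G) {k : ℕ} (f : SimpleGraph.cycleGraph (2 * k + 4) ↪g G)
    {i j : Fin (2 * k + 4)}
    {w a b : V} (hij : (SimpleGraph.cycleGraph (2 * k + 4)).Adj i j)
    (hw : ∀ l, G.Adj w (f l) ↔ (l = i ∨ l = j)) (hwa : G.Adj w a) (hwb : G.Adj w b)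
    (hab : ¬ G.Adj a b)
    (ha : ∀ l, G.Adj a (f l) ↔ l = i) (hbb : ∀ l, G.Adj b (f l) ↔ l = j) : False := by
  obtain ⟨l1, l2, h1, h2, h3, h4, h5, h6, h7, h8⟩ := cls_next (by omega) i j hij
  have hji : j ≠ i := hij.ne'
  have a1 : G.Adj w (f j) := (hw j).2 (Or.inr rfl)
  have n4 : ¬ G.Adj w (f l1) := fun e => by
    rcases (hw l1).1 e with h | h
    · exact h3 h
    · exact h4 h
  exact hb a w (f j) (f l1) b hwa.symm a1 (f.map_adj_iff.2 h1) hwb.symm ((hbb j).2 rfl)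
    (fun e => hji ((ha j).1 e)) (fun e => h3 ((ha l1).1 e)) n4 hab
    (fun e => h4 ((hbb l1).1 e.symm))

/-- a loaded hat has an antenna -/
theorem cls_ant {k : ℕ} (f : SimpleGraph.cycleGraph (2 * k + 4) ↪g G) {w v a b c : V}
    (p : G.Walk w v) (hcl : Clw G v a b c)
    (hp : ∀ x ∈ p.support, x = w ∨ ∀ l, ¬ G.Adj x (f l))
    (ha : a = w ∨ ∀ l, ¬ G.Adj a (f l)) : ∃ u, G.Adj w u ∧ ∀ l, ¬ G.Adj u (f l) := by
  cases p with
  | nil =>
    rcases ha with rfl | h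
    · exact absurd hcl.1 (G.loopless.irrefl _)
    · exact ⟨a, hcl.1, h⟩
  | cons hadj q =>
    rename_i y
    have hy : y ∈ (SimpleGraph.Walk.cons hadj q).support := by
      rw [SimpleGraph.Walk.support_cons]
      exact List.mem_cons_of_mem _ (SimpleGraph.Walk.start_mem_support q)
    rcases hp y hy with h | h
    · exact absurd h hadj.ne'
    · exact ⟨y, hadj, h⟩

theorem cls_claw (h : ∀ v a b c : V, ¬ Clw G v a b c) : LoadFree G ∧ TCrownFree G := by
  constructor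
  · intro k f i j w v a b c p hij hw hcl hp ha
    exact h v a b c hcl
  · intro k f i j w a b c hij hw hcl ha hb hc
    exact h w a b c hcl

theorem cls_bull (hb : Bullfree G) : LoadFree G ∧ TCrownFree G := by
  constructor
  · intro k f i j w v a b c p hij hw hcl hp ha
    obtain ⟨u, hwu, hu⟩ := cls_ant f p hcl hp ha
    exact cls_bull1 hb f hij hw hwu hu
  · intro k f i j w a b c hij hw hcl ha hbb hc
    exact cls_bull2 hb f hij hw hcl.1 hcl.2.1 hcl.2.2.2.2.2.2.1 ha hbb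

theorem cls_P5 (hb : IsEmpty (SimpleGraph.pathGraph 5 ↪g G)) : LoadFree G ∧ TCrownFree G := by
  constructor
  · intro k f i j w v a b c p hij hw hcl hp ha
    obtain ⟨u, hwu, hu⟩ := cls_ant f p hcl hp ha
    obtain ⟨φ⟩ := cls_p5 f hij hw hwu (fun l e => absurd e (hu l))
    exact hb.false φ
  · intro k f i j w a b c hij hw hcl ha hbb hc
    obtain ⟨φ⟩ := cls_p5 f hij hw hcl.1 (fun l e => (ha l).1 e)
    exact hb.false φ

end Pool.Agent.H92.BJ
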