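import Mathlib
import Pool.Agent.H92.BH.HDefs
import Pool.Agent.H92.BH.HU
import Pool.Agent.H92.BJ.JDefs

/-!
MP_5aa732_co, project BJ92: the lemma on paths between two vertices of layer two, and induced paths of odd length with
ends in layer i and interior in higher layers.
-/

set_option autoImplicit false
set_option linter.unusedSectionVars false
set_option linter.unusedVariables false

namespace Pool.Agent.H92.BJ

open SimpleGraph Finset Pool.Agent.H92.TD Pool.Agent.H92.BF Pool.Agent.H92.BG Pool.Agent.H92.BH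

variable {V : Type} {G : SimpleGraph V} {v : V} {d : V → ℕ} {Z : Finset V}

theorem bj_U (h : LayC G v d Z) (h3 : 3 ≤ Z.card) (ha : LoadFree G) (hc : TCrownFree G)
    (hu : NoUp G d 1)
    {n : ℕ} {p : ℕ → V} (hodd : Odd n)
    (hp : IP G n p) (hd0 : d (p 0) = 2) (hdn : d (p n) = 2)
    (hin : ∀ j, 0 < j → j < n → 2 < d (p j)) {x x' : V} (hx : d x = 1) (hx' : d x' = 1)
    (hx0 : G.Adj x (p 0)) (hxn : ¬ G.Adj x (p n)) (hx'n : G.Adj x' (p n)) (hx'0 : ¬ G.Adj x' (p 0))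
    (hz : ∀ z ∈ Z, ¬ G.Adj z (p 0)) (hor : x' ∈ Z ∨ ∀ z ∈ Z, ¬ G.Adj z (p n)) : False := by
  have hv := h.dv
  have hge : ∀ j, j ≤ n → 2 ≤ d (p j) := by
    intro j hj
    rcases Nat.eq_zero_or_pos j with h4 | h4
    · rw [h4, hd0]
    · rcases Nat.lt_or_ge j n with h5 | h5
      · exact (hin j h4 h5).le
      · have h6 : j = n := by omega
        rw [h6, hdn]
  have hxx : G.Adj x x' := bh_A h hu hodd hp hd0 hdn hin hx hx' hx0 hxn hx'n hx'0
  have f1 : ∀ j, 0 < j → j ≤ n → ¬ G.Adj x (p j) := fun j h1 h2 => by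
    rcases Nat.lt_or_ge j n with h5 | h5
    · have := hin j h1 h5
      exact h.nadj (by omega)
    · have h6 : j = n := by omega
      rw [h6]
      exact hxn
  have f2 : ∀ j, j < n → ¬ G.Adj x' (p j) := fun j h2 => by
    rcases Nat.eq_zero_or_pos j with h4 | h4
    · rw [h4]
      exact hx'0
    · have := hin j h4 h2
      exact h.nadj (by omega)
  have b1 : ∀ j, j ≤ n → x ≠ p j := fun j hj => ne_of_d (d := d) (by have := hge j hj; omega)
  have b2 : ∀ j, j ≤ n → x' ≠ p j := fun j hj => ne_of_d (d := d) (by have := hge j hj; omega)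
  have hvp : ∀ j, j ≤ n → ¬ G.Adj v (p j) := fun j hj => h.nadj (by have := hge j hj; omega)
  have hzp : ∀ z ∈ Z, ¬ G.Adj z (p n) → ∀ j, j ≤ n → ¬ G.Adj z (p j) := by
    intro z hzZ hzn j hj
    have e := h.dz hzZ
    rcases Nat.eq_zero_or_pos j with h4 | h4
    · rw [h4]
      exact hz z hzZ
    · rcases Nat.lt_or_ge j n with h5 | h5
      · have := hin j h4 h5
        exact h.nadj (by omega)
      · have h6 : j = n := by omega
        rw [h6]
        exact hzn
  -- an antenna of `v` in `Z` is impossible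
  have hant : ∀ z ∈ Z, ¬ G.Adj z x → ¬ G.Adj z x' → ¬ G.Adj z (p n) → False := by
    intro z hzZ n1 n2 n3
    obtain ⟨b, c, hcl⟩ := clw_ex h h3 hzZ
    refine bj_ld ha hp hodd hx0 f1 b1 hx'n f2 b2 hxx (h.one hx) (h.one hx') hvp
      (SimpleGraph.Walk.nil) ?_ hcl (Or.inr ⟨n1, n2, hzp z hzZ n3⟩)
    intro y hy
    left
    simpa using hy
  obtain ⟨z1, hz1, hxz1⟩ : ∃ z1 ∈ Z, ¬ G.Adj x z1 := by
    by_contra hcon
    push Not at hcon
    have h1 := h.Zm x (p 0) hcon hx0 hz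
    have h2 := h.dz h1
    omega
  have hz1n : ¬ G.Adj z1 (p n) := fun e =>
    hxz1 (bh_A h hu hodd hp hd0 hdn hin hx (h.dz hz1) hx0 hxn e (hz z1 hz1))
  by_cases c1 : G.Adj z1 x'
  · have hx'Z : x' ∉ Z := fun e => h.Zs z1 hz1 x' e c1
    have hor' : ∀ z ∈ Z, ¬ G.Adj z (p n) := by
      rcases hor with h1 | h1
      · exact absurd h1 hx'Z
      · exact h1
    obtain ⟨z2, hz2, hxz2⟩ : ∃ z2 ∈ Z, ¬ G.Adj x' z2 := by
      by_contra hcon
      push Not at hcon
      have h1 := h.Zm x' (p n) hcon hx'n hor'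
      have h2 := h.dz h1
      omega
    by_cases c2 : G.Adj z2 x
    · have hne : z2 ≠ z1 := by
        rintro rfl
        exact hxz1 c2.symm
      obtain ⟨c, hcZ, hc2, hc1⟩ := pick1 h3 z2 z1
      exact bj_crown hc hp hodd (z := z2) (z' := z1) (z'' := c) hx0 f1 b1 hx'n f2 b2 hxx (h.one hx)
        (h.one hx') hvp (clw_of h hz2 hz1 hcZ hne hc2 hc1) c2
        (fun e => hxz2 e.symm) (hzp z2 hz2 (hor' z2 hz2)) c1 (fun e => hxz1 e.symm)
        (hzp z1 hz1 hz1n) (hzp c hcZ (hor' c hcZ))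
    · exact hant z2 hz2 c2 (fun e => hxz2 e.symm) (hor' z2 hz2)
  · exact hant z1 hz1 (fun e => hxz1 e.symm) c1 hz1n

theorem bj_up2 (h : LayC G v d Z) (h3 : 3 ≤ Z.card) (ho : OddHoleFree G) (ha : LoadFree G)
    (hc : TCrownFree G) (hu : NoUp G d 1) : NoUp G d 2 := by
  intro n p hodd hn3 hp hd0 hdn hin
  have hne : ∀ a, d a = 1 → ∀ j, j ≤ n → p j ≠ a := by
    intro a ha j hj
    rcases Nat.eq_zero_or_pos j with h4 | h4
    · rw [h4]
      exact ne_of_d (d := d) (by omega)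
    · rcases Nat.lt_or_ge j n with h5 | h5
      · have := hin j h4 h5
        exact ne_of_d (d := d) (by omega)
      · have h6 : j = n := by omega
        rw [h6]
        exact ne_of_d (d := d) (by omega)
  have hcom : ∀ a, d a = 1 → G.Adj a (p 0) → ¬ G.Adj a (p n) := by
    intro a ha h0 hn
    refine bg_odd ho hp hodd hn3 h0 hn ?_ (hne a ha)
    intro j h1 h2
    have := hin j h1 h2
    exact h.nadj (by omega)
  obtain ⟨x, hx0, hxd⟩ := h.d2 (p 0) (by omega)
  obtain ⟨x', hxn, hxd'⟩ := h.d2 (p n) (by omega)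
  have hx : d x = 1 := by omega
  have hx' : d x' = 1 := by omega
  by_cases c0 : ∃ z ∈ Z, G.Adj z (p 0)
  · obtain ⟨z, hz, hz0⟩ := c0
    have hzd := h.dz hz
    by_cases c1 : ∃ z' ∈ Z, G.Adj z' (p n)
    · obtain ⟨z', hz', hz'n⟩ := c1
      have hzd' := h.dz hz'
      exact h.Zs z hz z' hz' (bh_A h hu hodd hp hd0 hdn hin hzd hzd' hz0 (hcom z hzd hz0) hz'n
        (fun e => hcom z' hzd' e hz'n))
    · push Not at c1
      refine bj_U h h3 ha hc hu (n := n) (p := fun j => p (n - j)) hodd (ip_rev hp) ?_ ?_ ?_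
        (x := x') (x' := z) hx' hzd ?_ ?_ ?_ ?_ ?_ (Or.inl hz)
      · simpa using hdn
      · simpa using hd0
      · intro j h1 h2
        exact hin (n - j) (by omega) (by omega)
      · simpa using hxn.symm
      · intro e
        have e' : G.Adj x' (p 0) := by simpa using e
        exact hcom x' hx' e' hxn.symm
      · simpa using hz0
      · intro e
        have e' : G.Adj z (p n) := by simpa using e
        exact c1 z hz e'
      · intro z1 hz1 e
        have e' : G.Adj z1 (p n) := by simpa using e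
        exact c1 z1 hz1 e'
  · push Not at c0
    by_cases c1 : ∃ z' ∈ Z, G.Adj z' (p n)
    · obtain ⟨z', hz', hz'n⟩ := c1
      have hzd' := h.dz hz'
      exact bj_U h h3 ha hc hu hodd hp hd0 hdn hin hx hzd' hx0.symm (hcom x hx hx0.symm) hz'n
        (c0 z' hz') c0 (Or.inl hz')
    · push Not at c1
      exact bj_U h h3 ha hc hu hodd hp hd0 hdn hin hx hx' hx0.symm (hcom x hx hx0.symm) hxn.symm
        (fun e => hcom x' hx' e hxn.symm) c0 (Or.inr c1)

/-- Adjacent vertices of layer `i + 1`, each with a neighbour in layer `i + 2`, have a common neighbour `w` in layer `i`,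
and some member `a` of `Z` is `w` or nonadjacent to both. -/
theorem bj_w (h : LayC G v d Z) (h3 : 3 ≤ Z.card) (h5 : C5free G) {i : ℕ} (hi : 1 ≤ i)
    (hk : CompK G d i) {x x' k k' : V}
    (hx : d x = i + 1) (hx' : d x' = i + 1) (hkd : d k = i + 2) (hkd' : d k' = i + 2)
    (hxx : G.Adj x x') (hxk : G.Adj x k) (hxk' : G.Adj x' k') :
    ∃ w a, d w = i ∧ G.Adj w x ∧ G.Adj w x' ∧ a ∈ Z ∧ (a = w ∨ (¬ G.Adj a x ∧ ¬ G.Adj a x')) := by
  classical
  have hv := h.dv
  obtain ⟨w, u, hwd, hud, hwx, hwx', hwu⟩ := bh_w h hi hk hx hx' hxx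
  rcases Nat.lt_or_ge 1 i with hi2 | hi1
  · obtain ⟨a, haZ, -, -⟩ := pick1 h3 v v
    have had := h.dz haZ
    exact ⟨w, a, hwd, hwx, hwx', haZ, Or.inr ⟨h.nadj (by omega), h.nadj (by omega)⟩⟩
  · have hi' : i = 1 := by omega
    subst hi'
    have key : ∀ y, d y = 2 → ∀ q, d q = 3 → G.Adj y q → ∃ a ∈ Z, ¬ G.Adj a y := by
      intro y hy q hq hyq
      by_contra hcon
      push Not at hcon
      have h1 := h.Zm y q (fun z hz => (hcon z hz).symm) hyq
        (fun z hz => h.nadj (by have := h.dz hz; omega))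
      have h2 := h.dz h1
      omega
    by_cases c1 : ∀ z ∈ Z, G.Adj z x → G.Adj z x'
    · obtain ⟨a, haZ, hax⟩ := key x' hx' k' hkd' hxk'
      exact ⟨w, a, hwd, hwx, hwx', haZ, Or.inr ⟨fun e => hax (c1 a haZ e), hax⟩⟩
    by_cases c2 : ∀ z ∈ Z, G.Adj z x' → G.Adj z x
    · obtain ⟨a, haZ, hax⟩ := key x hx k hkd hxk
      exact ⟨w, a, hwd, hwx, hwx', haZ, Or.inr ⟨hax, fun e => hax (c2 a haZ e)⟩⟩
    exfalso
    push Not at c1 c2
    obtain ⟨z, hz, hzx, hzx'⟩ := c1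
    obtain ⟨z', hz', hz'x', hz'x⟩ := c2
    exact h5 v z x x' z' (h.Z1 z hz) hzx hxx hz'x'.symm (h.Z1 z' hz').symm
      (h.nadj (by omega)) hzx' (fun ha => hz'x ha.symm)
      (h.nadj' (by omega)) (h.Zs z' hz' z hz)

theorem bj_hat (h : LayC G v d Z) (h3 : 3 ≤ Z.card) (h5 : C5free G) (ha : LoadFree G) {i : ℕ}
    (hi : 1 ≤ i) (hk : CompK G d i) {n : ℕ} {p : ℕ → V} (hp : IP G n p) (hodd : Odd n)
    (hge : ∀ j, j ≤ n → i + 2 ≤ d (p j)) (h0 : d (p 0) = i + 2) (hn : d (p n) = i + 2)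
    {x x' : V} (hxd : d x = i + 1) (hxd' : d x' = i + 1) (hx0 : G.Adj x (p 0))
    (hx : ∀ j, 0 < j → j ≤ n → ¬ G.Adj x (p j)) (hxne : ∀ j, j ≤ n → x ≠ p j)
    (hxn : G.Adj x' (p n)) (hx' : ∀ j, j < n → ¬ G.Adj x' (p j)) (hxne' : ∀ j, j ≤ n → x' ≠ p j)
    (hxx : G.Adj x x') : False := by
  obtain ⟨w, a, hwd, hwx, hwx', haZ, hax⟩ := bj_w h h3 h5 hi hk hxd hxd' h0 hn hxx hx0 hxn
  obtain ⟨b, c, hcl⟩ := clw_ex h h3 haZ
  obtain ⟨q, hq⟩ := walk_down h i w hwd
  have had := h.dz haZ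
  refine bj_ld ha hp hodd hx0 hx hxne hxn hx' hxne' hxx hwx hwx'
    (fun j hj => h.nadj (by have := hge j hj; omega)) q ?_ hcl ?_
  · intro y hy
    rcases hq y hy with h1 | h1
    · exact Or.inl h1
    · exact Or.inr ⟨h.nadj (by omega), h.nadj (by omega),
        fun j hj => h.nadj (by have := hge j hj; omega)⟩
  · rcases hax with h1 | h1
    · exact Or.inl h1
    · exact Or.inr ⟨h1.1, h1.2, fun j hj => h.nadj (by have := hge j hj; omega)⟩

theorem bj_upS (h : LayC G v d Z) (h3 : 3 ≤ Z.card) (h5 : C5free G) (ho : OddHoleFree G)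
    (ha : LoadFree G) {i : ℕ} (hi : 1 ≤ i)
    (hk : CompK G d i) (hu : NoUp G d (i + 1)) : NoUp G d (i + 2) := by
  intro n p hodd hn3 hp hd0 hdn hin
  have hge : ∀ j, j ≤ n → i + 2 ≤ d (p j) := by
    intro j hj
    rcases Nat.eq_zero_or_pos j with h4 | h4
    · rw [h4, hd0]
    · rcases Nat.lt_or_ge j n with h5 | h5
      · exact (hin j h4 h5).le
      · have h6 : j = n := by omega
        rw [h6, hdn]
  obtain ⟨x, hx0, hxd⟩ := h.d2 (p 0) (by omega)
  obtain ⟨x', hxn, hxd'⟩ := h.d2 (p n) (by omega)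
  have a1 : d x = i + 1 := by omega
  have a2 : d x' = i + 1 := by omega
  have b1 : ∀ j, j ≤ n → x ≠ p j := fun j hj => ne_of_d (d := d) (by have := hge j hj; omega)
  have b2 : ∀ j, j ≤ n → x' ≠ p j := fun j hj => ne_of_d (d := d) (by have := hge j hj; omega)
  have c1 : ∀ j, 0 < j → j < n → ¬ G.Adj x (p j) := fun j h1 h2 =>
    h.nadj (by have := hin j h1 h2; omega)
  have c2 : ∀ j, 0 < j → j < n → ¬ G.Adj x' (p j) := fun j h1 h2 =>
    h.nadj (by have := hin j h1 h2; omega)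
  by_cases e1 : G.Adj x (p n)
  · exact bg_odd ho hp hodd hn3 hx0.symm e1 c1 (fun j hj => (b1 j hj).symm)
  by_cases e2 : G.Adj x' (p 0)
  · exact bg_odd ho hp hodd hn3 e2 hxn.symm c2 (fun j hj => (b2 j hj).symm)
  have e3 : x ≠ x' := by
    rintro rfl
    exact e1 hxn.symm
  have f1 : ∀ j, 0 < j → j ≤ n → ¬ G.Adj x (p j) := fun j h1 h2 => by
    rcases Nat.lt_or_ge j n with h5 | h5
    · exact c1 j h1 h5
    · have h6 : j = n := by omega
      rw [h6]
      exact e1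
  have f2 : ∀ j, j < n → ¬ G.Adj x' (p j) := fun j h2 => by
    rcases Nat.eq_zero_or_pos j with h4 | h4
    · rw [h4]
      exact e2
    · exact c2 j h4 h2
  by_cases e4 : G.Adj x x'
  · exact bj_hat h h3 h5 ha hi hk hp hodd hge hd0 hdn a1 a2 hx0.symm f1 b1 hxn.symm f2 b2 e4
  · obtain ⟨r, hr, r0, rn, rj⟩ := bh_ext hp hx0.symm hxn.symm f1 f2 b1 b2 e3 e4
    refine hu (n + 2) r (hodd.add_even (by decide)) (by omega) hr (by rw [r0, a1]) (by rw [rn, a2])
      (fun j h1 h2 => ?_)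
    rw [rj j h1 h2]
    have := hge (j - 1) (by omega)
    omega

end Pool.Agent.H92.BJ
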