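import Mathlib
import Pool.Agent.H92.BH.HDefs
import Pool.Agent.H92.BH.HU
import Pool.Agent.H92.BH.HComp
import Pool.Agent.H92.BJ.JDefs
import Pool.Agent.H92.BJ.JU

/-!
MP_5aa732_co, project BJ92: every clique of layer i + 1 (i at least 1) has a common neighbour in layer i.
-/

set_option autoImplicit false
set_option linter.unusedSectionVars false
set_option linter.unusedVariables false

namespace Pool.Agent.H92.BJ

open SimpleGraph Finset Pool.Agent.H92.TD Pool.Agent.H92.BF Pool.Agent.H92.BG Pool.Agent.H92.BH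

variable {V : Type} {G : SimpleGraph V} {v : V} {d : V → ℕ} {Z : Finset V}

/-- `bj_U` for an edge `a b` of layer two -/
theorem bj_U1 (h : LayC G v d Z) (h3 : 3 ≤ Z.card) (ha : LoadFree G) (hc : TCrownFree G)
    (hu : NoUp G d 1)
    {a b : V} (hab : G.Adj a b) (hda : d a = 2) (hdb : d b = 2)
    {x x' : V} (hx : d x = 1) (hx' : d x' = 1)
    (hxa : G.Adj x a) (hxb : ¬ G.Adj x b) (hx'b : G.Adj x' b) (hx'a : ¬ G.Adj x' a)
    (hz : ∀ z ∈ Z, ¬ G.Adj z a) (hor : x' ∈ Z ∨ ∀ z ∈ Z, ¬ G.Adj z b) : False := by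
  refine bj_U h h3 ha hc hu (n := 1) (p := fun j => if j = 0 then a else b) odd_one (ip1 hab) ?_ ?_
    ?_ hx hx' ?_ ?_ ?_ ?_ ?_ ?_
  · simpa using hda
  · simpa using hdb
  · intro j h1 h2
    omega
  · simpa using hxa
  · simpa using hxb
  · simpa using hx'b
  · simpa using hx'a
  · simpa using hz
  · simpa using hor

theorem bj_comp1 [Fintype V] (h : LayC G v d Z) (h3 : 3 ≤ Z.card) (ha : LoadFree G)
    (hc : TCrownFree G) (hu : NoUp G d 1) : CompK G d 1 := by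
  classical
  intro K hKn hK hKd
  have hd2 : ∀ k ∈ K, d k = 2 := hKd
  obtain ⟨A, hA⟩ : ∃ A : Finset V, A = K.filter (fun k => ∃ z ∈ Z, G.Adj z k) := ⟨_, rfl⟩
  obtain ⟨B, hB⟩ : ∃ B : Finset V, B = K.filter (fun k => ¬ ∃ z ∈ Z, G.Adj z k) := ⟨_, rfl⟩
  have mA : ∀ k, k ∈ A ↔ k ∈ K ∧ ∃ z ∈ Z, G.Adj z k := fun k => by rw [hA, Finset.mem_filter]
  have mB : ∀ k, k ∈ B ↔ k ∈ K ∧ ¬ ∃ z ∈ Z, G.Adj z k := fun k => by rw [hB, Finset.mem_filter]
  have hcl : ∀ k ∈ K, ∀ k1 ∈ K, k ≠ k1 → G.Adj k k1 := fun k hk k1 hk1 hne =>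
    hK (by exact_mod_cast hk) (by exact_mod_cast hk1) hne
  -- a common neighbour of `A` in `Z`
  have hAz : A.Nonempty → ∃ z, z ∈ Z ∧ ∀ k ∈ A, G.Adj z k := by
    intro hAn
    refine bh_max (fun z => z ∈ Z) A hAn ?_ ?_
    · intro k hk
      exact ((mA k).1 hk).2
    · intro y y' k k1 hy hy' hk hk1 hyk1 hyk hy'k hy'k1
      have hkK := ((mA k).1 hk).1
      have hk1K := ((mA k1).1 hk1).1
      have hne : k1 ≠ k := fun e => hyk (e ▸ hyk1)
      exact h.Zs y hy y' hy' (bh_p4 (i := 1) hu (h.dz hy) (h.dz hy') (hd2 k hkK) (hd2 k1 hk1K)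
        hyk1 hyk hy'k hy'k1 (hcl k1 hk1K k hkK hne))
  -- a vertex of layer one with a neighbour in `B` is complete to `A`
  have hBA : ∀ y, d y = 1 → (∃ k ∈ B, G.Adj y k) → ∀ a ∈ A, G.Adj y a := by
    rintro y hy ⟨k, hk, hyk⟩ a haA
    by_contra hya
    obtain ⟨z0, hz0, hz0A⟩ := hAz ⟨a, haA⟩
    obtain ⟨hkK, hkZ⟩ := (mB k).1 hk
    push Not at hkZ
    have haK := ((mA a).1 haA).1
    have hne : k ≠ a := fun e => hya (e ▸ hyk)
    exact bj_U1 h h3 ha hc hu (hcl k hkK a haK hne) (hd2 k hkK) (hd2 a haK) hy (h.dz hz0) hyk hya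
      (hz0A a haA) (hkZ z0 hz0) hkZ (Or.inl hz0)
  by_cases hBn : B.Nonempty
  · obtain ⟨y, hy, hyB⟩ := bh_max (fun y => d y = 1) B hBn
      (by
        intro k hk
        have hkd := hd2 k ((mB k).1 hk).1
        obtain ⟨x, hx, hxd⟩ := h.d2 k (by omega)
        exact ⟨x, by omega, hx.symm⟩)
      (by
        intro y y' k k1 hy hy' hk hk1 hyk1 hyk hy'k hy'k1
        obtain ⟨hkK, hkZ⟩ := (mB k).1 hk
        obtain ⟨hk1K, hk1Z⟩ := (mB k1).1 hk1
        push Not at hkZ hk1Z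
        have hne : k1 ≠ k := fun e => hyk (e ▸ hyk1)
        exact bj_U1 h h3 ha hc hu (hcl k1 hk1K k hkK hne) (hd2 k1 hk1K) (hd2 k hkK) hy hy' hyk1 hyk
          hy'k hy'k1 hk1Z (Or.inr hkZ))
    refine ⟨y, hy, ?_⟩
    intro k hk
    by_cases hkz : ∃ z ∈ Z, G.Adj z k
    · obtain ⟨b, hb⟩ := hBn
      exact hBA y hy ⟨b, hb, hyB b hb⟩ k ((mA k).2 ⟨hk, hkz⟩)
    · exact hyB k ((mB k).2 ⟨hk, hkz⟩)
  · have hall : ∀ k ∈ K, k ∈ A := by
      intro k hk
      by_contra hkA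
      refine hBn ⟨k, (mB k).2 ⟨hk, fun hz => hkA ((mA k).2 ⟨hk, hz⟩)⟩⟩
    obtain ⟨k0, hk0⟩ := hKn
    obtain ⟨z, hz, hzA⟩ := hAz ⟨k0, hall k0 hk0⟩
    exact ⟨z, h.dz hz, fun k hk => hzA k (hall k hk)⟩

theorem bj_compS [Fintype V] (h : LayC G v d Z) (h3 : 3 ≤ Z.card) (h5 : C5free G)
    (ha : LoadFree G) {i : ℕ} (hi : 1 ≤ i)
    (hk : CompK G d i) (hu : NoUp G d (i + 1)) : CompK G d (i + 1) := by
  classical
  intro K hKn hK hKd
  have hcl : ∀ k ∈ K, ∀ k1 ∈ K, k ≠ k1 → G.Adj k k1 := fun k hk k1 hk1 hne =>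
    hK (by exact_mod_cast hk) (by exact_mod_cast hk1) hne
  refine bh_max (fun y => d y = i + 1) K hKn ?_ ?_
  · intro k hk
    have hkd := hKd k hk
    obtain ⟨x, hx, hxd⟩ := h.d2 k (by omega)
    exact ⟨x, by omega, hx.symm⟩
  · intro y y' k k1 hy hy' hkK hk1K hyk1 hyk hy'k hy'k1
    have hne : k1 ≠ k := fun e => hyk (e ▸ hyk1)
    have hadj := hcl k1 hk1K k hkK hne
    have hkd := hKd k hkK
    have hk1d := hKd k1 hk1K
    have hyy := bh_p4 hu hy hy' hkd hk1d hyk1 hyk hy'k hy'k1 hadj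
    have hge : ∀ j : ℕ, d (if j = 0 then k1 else k) = i + 2 := by
      intro j
      split_ifs
      · exact hk1d
      · exact hkd
    refine bj_hat h h3 h5 ha hi hk (n := 1) (p := fun j => if j = 0 then k1 else k) (ip1 hadj)
      odd_one (fun j _ => by rw [hge]) (hge 0) (hge 1)
      (x := y) (x' := y') hy hy' ?_ ?_ ?_ ?_ ?_ ?_ hyy
    · simpa using hyk1
    · intro j h1 h2
      have e : j = 1 := by omega
      subst e
      simpa using hyk
    · intro j _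
      exact ne_of_d (d := d) (by rw [hge]; omega)
    · simpa using hy'k
    · intro j h1
      have e : j = 0 := by omega
      subst e
      simpa using hy'k1
    · intro j _
      exact ne_of_d (d := d) (by rw [hge]; omega)

theorem bj_all [Fintype V] (h : LayC G v d Z) (h3 : 3 ≤ Z.card) (h5 : C5free G)
    (ho : OddHoleFree G) (ha : LoadFree G)
    (hc : TCrownFree G) (i : ℕ) (hi : 1 ≤ i) : CompK G d i ∧ NoUp G d (i + 1) := by
  induction i, hi using Nat.le_induction with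
  | base =>
    have hu := bh_up1 h ho
    exact ⟨bj_comp1 h h3 ha hc hu, bj_up2 h h3 ho ha hc hu⟩
  | succ i hi ih =>
    exact ⟨bj_compS h h3 h5 ha hi ih.1 ih.2, bj_upS h h3 h5 ho ha hi ih.1 ih.2⟩

end Pool.Agent.H92.BJ
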